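import Pool.Agent.Lib.H50X.FB

/-! For every dimension `s ≥ 1` there is a vector `α ∈ ℝ^s` whose Kronecker sequence `({n α})` satisfies
`N D_N = O((log N)^s loglog N)`, uniformly over all boxes. Project H50X (see `Pool/Agent/Lib/H50X/PROOF.md`). -/

open scoped Classical in
theorem Pool.Agent.Results.MP_0f5419_nt.LogLogBound.result (s : ℕ) (hs : 1 ≤ s) :
    ∃ α : Fin s → ℝ, ∃ C : ℝ, ∀ N : ℕ, 3 ≤ N → ∀ a b : Fin s → ℝ,
      (∀ j, 0 ≤ a j ∧ a j < b j ∧ b j ≤ 1) →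
      |(((Finset.range N).filter fun n : ℕ =>
            ∀ j, a j ≤ Int.fract ((n : ℝ) * α j) ∧ Int.fract ((n : ℝ) * α j) < b j).card : ℝ)
          - N * ∏ j, (b j - a j)|
        ≤ C * Real.log N ^ s * Real.log (Real.log N) := by
  obtain ⟨α, C, h⟩ := Pool.Agent.Lib.H50X.main s hs
  exact ⟨α, C, fun N hN a b hab =>
    h N hN a b (fun j => (hab j).1) (fun j => (hab j).2.1.le) (fun j => (hab j).2.2)⟩
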